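import Pool.Agent.W904.AK.Sdc2
import Pool.Agent.W814.BB.Asym

/-!
# Covering `[1, N]` by one residue class for each prime near `N^α`, `1/2 < α < 1`: new exponents

`coveredCount α N a` is the number `S_a(N)` of integers of `[1, N]` in a chosen class modulo some
prime `N^α ≤ p < 2 N^α`, and `LowerExponent α c` says `S_a(N) ≥ N^{c - o(1)}` uniformly in the
choice `a` (definitions in `Pool/Agent/H170R2/PC/Defs.lean`).

Every exponent `c` in the sums-differences problem (`SDc c`, definition in
`Pool/Agent/W904/AK/Defs.lean`; `SDc 1.67108` is the theorem `sdc2`) gives two lower exponents.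
One comes from windows of length `O(N^α)`.  The other comes from pairs of chosen classes `p, q`
that meet, together with a further point of the class `q`: for a fixed stem `p` these flags are
split according to residue classes modulo `p`, in each residue class their number is bounded by
the sums-differences inequality, and the first and second moments of the number of covered
integers in the classes are bounded since two primes have product at least `N`.
-/

namespace Pool.Agent.Results.MP_bb5cc8_nt.FlagSumsDifferences

open Pool.Agent.H170R2.PC Pool.Agent.W904.AK Pool.Agent.W814.BB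

/-- The exponent obtained from an exponent `c` of the sums-differences problem. -/
noncomputable def expoOf (c α : ℝ) : ℝ :=
  max (min (3 / 2 - α) ((3 - (3 - c) * α) / (1 + c))) (1 - α + α / c)

/-- The exponent obtained from `c = 1.67108`. -/
noncomputable def newExpo (α : ℝ) : ℝ := expoOf (167108 / 100000) α

/-- Every exponent of the sums-differences problem gives lower exponents. -/
theorem general {c : ℝ} (hc1 : 1 < c) (hc2 : c < 2) (h : SDc c) {α : ℝ} (hα : 1 / 2 < α)
    (hα1 : α < 1) : LowerExponent α (expoOf c α) := by
  obtain ⟨ms, h0, hpos, hSB⟩ := sliceBound_of_SDc (by linarith) h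
  unfold expoOf
  rcases max_choice (min (3 / 2 - α) ((3 - (3 - c) * α) / (1 + c))) (1 - α + α / c) with h1 | h1
  · rw [h1]
    exact exp_flag hc1 hc2 h0 hpos hSB hα hα1
  · rw [h1]
    exact Pool.Agent.H419R3.KT.exp_gen hc1.le
      (progressionBound_of_slices (by linarith) hSB) (by linarith) hα1

/-- New lower exponents for every `1/2 < α < 1`.  For `0.61 ≤ α < 3/4` and for `0.836 ≤ α < 1`
they are larger than the earlier exponents: `min (1 - α/3) (3/2 - α)`, `1 - 3α/7`,
`1 - 5α/11` and the reciprocal energy exponents. -/
theorem result :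
    (∀ α : ℝ, 1 / 2 < α → α < 1 → LowerExponent α (newExpo α)) ∧
    (∀ α : ℝ, (61 / 100 ≤ α ∧ α < 3 / 4) ∨ (836 / 1000 ≤ α ∧ α < 1) →
      min (1 - α / 3) (3 / 2 - α) < newExpo α ∧ 1 - 3 * α / 7 < newExpo α ∧
      1 - 5 * α / 11 < newExpo α ∧
      ∀ h : ℕ, 1 ≤ h → min ((3 - 2 * α - (1 - α) / h) / 2)
        (2 - 2 * α + (2 * α - 1) / (2 * h)) < newExpo α) := by
  refine ⟨fun α h1 h2 => general (by norm_num) (by norm_num) sdc2 h1 h2, ?_⟩
  intro α hα
  rcases hα with ⟨h1, h2⟩ | ⟨h1, h2⟩
  · have hF : (3 - (3 - 167108 / 100000) * α) / (1 + 167108 / 100000) ≤ newExpo α := by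
      unfold newExpo expoOf
      refine le_max_of_le_left (le_min ?_ le_rfl)
      rw [div_le_iff₀ (by norm_num)]
      linarith
    have hF' : ∀ x : ℝ, x * (267108 / 100000) < 3 - (132892 / 100000) * α → x < newExpo α := by
      intro x hx
      refine lt_of_lt_of_le ?_ hF
      rw [lt_div_iff₀ (by norm_num)]
      linarith
    refine ⟨?_, ?_, ?_, ?_⟩
    · exact (min_le_left _ _).trans_lt (hF' _ (by linarith))
    · exact hF' _ (by linarith)
    · exact hF' _ (by linarith)
    · intro h hh
      have hh0 : (1 : ℝ) ≤ h := by exact_mod_cast hh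
      rcases Nat.lt_or_ge h 3 with h3 | h3
      · have h3' : (h : ℝ) ≤ 2 := by exact_mod_cast (by omega : h ≤ 2)
        refine (min_le_left _ _).trans_lt (hF' _ ?_)
        have e : (1 - α) / 2 ≤ (1 - α) / h := by
          apply div_le_div_of_nonneg_left <;> linarith
        linarith
      · have h3' : (3 : ℝ) ≤ h := by exact_mod_cast h3
        refine (min_le_right _ _).trans_lt (hF' _ ?_)
        have e : (2 * α - 1) / (2 * h) ≤ (2 * α - 1) / (2 * 3) := by
          apply div_le_div_of_nonneg_left <;> linarith
        linarith
  · have hG : 1 - α + α / (167108 / 100000) ≤ newExpo α := le_max_right _ _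
    have hG' : ∀ x : ℝ, x < 1 - α + α * (100000 / 167108) → x < newExpo α := by
      intro x hx
      refine lt_of_lt_of_le ?_ hG
      have : α / (167108 / 100000) = α * (100000 / 167108) := by
        rw [div_div_eq_mul_div, mul_div_assoc]
      linarith
    refine ⟨?_, ?_, ?_, ?_⟩
    · exact (min_le_right _ _).trans_lt (hG' _ (by linarith))
    · exact hG' _ (by linarith)
    · exact hG' _ (by linarith)
    · intro h hh
      have hh0 : (1 : ℝ) ≤ h := by exact_mod_cast hh
      refine (min_le_right _ _).trans_lt (hG' _ ?_)
      have e : (2 * α - 1) / (2 * h) ≤ (2 * α - 1) / (2 * 1) := by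
        apply div_le_div_of_nonneg_left <;> linarith
      linarith

end Pool.Agent.Results.MP_bb5cc8_nt.FlagSumsDifferences
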